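import Mathlib

set_option autoImplicit false

/-!
# The convex functional on `c_0`

`Φ x = (x 1)^2 + 2 * ‖T x‖ + ∑ n, φ (x n)` where `T : c_0 → ℓ_2` is an injective bounded operator
and `φ u = (max (u^2 - 1) 0)^3`.
-/

namespace Pool.Agent.Lib.MP_fb9e71_an

open scoped Topology ContDiff ENNReal
open Set Filter

/-- The space `c_0`. -/
abbrev E0 := ZeroAtInftyContinuousMap ℕ ℝ

theorem abs_coord_le (x : E0) (n : ℕ) : |x n| ≤ ‖x‖ := by
  have := x.toBCF.norm_coe_le_norm n
  rw [ZeroAtInftyContinuousMap.norm_toBCF_eq_norm] at this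
  exact this

theorem norm_le_of_coord (x : E0) {R : ℝ} (hR : 0 ≤ R) (h : ∀ n, |x n| ≤ R) : ‖x‖ ≤ R := by
  rw [← ZeroAtInftyContinuousMap.norm_toBCF_eq_norm, BoundedContinuousFunction.norm_le hR]
  exact h

theorem tendsto_coord (x : E0) : Tendsto (fun n => x n) atTop (𝓝 0) := by
  have h := x.zero_at_infty'
  rw [Filter.cocompact_eq_cofinite, Nat.cofinite_eq_atTop] at h
  exact h

/-- The coordinate functionals. -/
noncomputable def ev (n : ℕ) : E0 →L[ℝ] ℝ :=
  LinearMap.mkContinuous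
    { toFun := fun x => x n
      map_add' := fun _ _ => rfl
      map_smul' := fun _ _ => rfl } 1 (fun x => by
        rw [one_mul]; exact abs_coord_le x n)

@[simp] theorem ev_apply (n : ℕ) (x : E0) : ev n x = x n := rfl

/-- The coordinates of `T x`. -/
noncomputable def dcoord (x : E0) : ℕ → ℝ
  | 0 => x 0
  | n + 1 => (1 / 2 : ℝ) ^ n * (x (n + 1) - x (n + 2))

theorem dcoord_bound (x : E0) (n : ℕ) : |dcoord x n| ≤ 4 * (1 / 2 : ℝ) ^ n * ‖x‖ := by
  cases n with
  | zero =>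
    simp only [dcoord, pow_zero, mul_one]
    have := abs_coord_le x 0
    have := norm_nonneg x
    linarith
  | succ n =>
    simp only [dcoord]
    rw [abs_mul, abs_of_pos (by positivity : (0 : ℝ) < (1 / 2) ^ n)]
    have h1 : |x (n + 1) - x (n + 2)| ≤ 2 * ‖x‖ := by
      refine (abs_sub _ _).trans ?_
      have := abs_coord_le x (n + 1)
      have := abs_coord_le x (n + 2)
      linarith
    calc (1 / 2 : ℝ) ^ n * |x (n + 1) - x (n + 2)| ≤ (1 / 2 : ℝ) ^ n * (2 * ‖x‖) := by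
          gcongr
      _ = 4 * (1 / 2 : ℝ) ^ (n + 1) * ‖x‖ := by ring

theorem dcoord_summable (x : E0) :
    Summable (fun n => ‖dcoord x n‖ ^ (2 : ℝ≥0∞).toReal) := by
  have h : Summable (fun n : ℕ => 16 * ‖x‖ ^ 2 * (1 / 4 : ℝ) ^ n) :=
    (summable_geometric_of_lt_one (by norm_num) (by norm_num)).mul_left _
  refine Summable.of_nonneg_of_le (fun n => by positivity) (fun n => ?_) h
  have h1 := dcoord_bound x n
  have h2 : (2 : ℝ≥0∞).toReal = ((2 : ℕ) : ℝ) := by norm_num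
  rw [h2, Real.rpow_natCast, Real.norm_eq_abs]
  calc |dcoord x n| ^ 2 ≤ (4 * (1 / 2 : ℝ) ^ n * ‖x‖) ^ 2 := by gcongr
    _ = 16 * ‖x‖ ^ 2 * (1 / 4 : ℝ) ^ n := by
      rw [show (1 / 4 : ℝ) = (1 / 2) ^ 2 by norm_num, ← pow_mul, mul_comm 2 n, pow_mul]
      ring

/-- The injective operator `T : c_0 → ℓ_2`, as a linear map. -/
noncomputable def Tlin : E0 →ₗ[ℝ] lp (fun _ : ℕ => ℝ) 2 where
  toFun x := ⟨dcoord x, memℓp_gen (dcoord_summable x)⟩
  map_add' x y := by
    ext n
    rw [lp.coeFn_add, Pi.add_apply]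
    show dcoord (x + y) n = dcoord x n + dcoord y n
    cases n with
    | zero => simp [dcoord]
    | succ n => simp [dcoord]; ring
  map_smul' c x := by
    ext n
    cases n with
    | zero => simp [dcoord]
    | succ n => simp [dcoord]; ring

theorem Tlin_apply (x : E0) (n : ℕ) : (Tlin x : ℕ → ℝ) n = dcoord x n := rfl

theorem Tlin_bound (x : E0) : ‖Tlin x‖ ≤ 8 * ‖x‖ := by
  have hp : 0 < (2 : ℝ≥0∞).toReal := by norm_num
  refine lp.norm_le_of_tsum_le hp (by positivity) ?_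
  have h : Summable (fun n : ℕ => 16 * ‖x‖ ^ 2 * (1 / 4 : ℝ) ^ n) :=
    (summable_geometric_of_lt_one (by norm_num) (by norm_num)).mul_left _
  have h2 : (2 : ℝ≥0∞).toReal = ((2 : ℕ) : ℝ) := by norm_num
  calc ∑' n, ‖(Tlin x : ℕ → ℝ) n‖ ^ (2 : ℝ≥0∞).toReal
      ≤ ∑' n : ℕ, 16 * ‖x‖ ^ 2 * (1 / 4 : ℝ) ^ n := by
        refine (dcoord_summable x).tsum_le_tsum (fun n => ?_) h
        have h1 := dcoord_bound x n
        rw [h2, Real.rpow_natCast, Real.norm_eq_abs]
        calc |dcoord x n| ^ 2 ≤ (4 * (1 / 2 : ℝ) ^ n * ‖x‖) ^ 2 := by gcongr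
          _ = 16 * ‖x‖ ^ 2 * (1 / 4 : ℝ) ^ n := by
            rw [show (1 / 4 : ℝ) = (1 / 2) ^ 2 by norm_num, ← pow_mul, mul_comm 2 n, pow_mul]
            ring
    _ = 16 * ‖x‖ ^ 2 * (1 - 1 / 4)⁻¹ := by
        rw [tsum_mul_left, tsum_geometric_of_lt_one (by norm_num) (by norm_num)]
    _ ≤ (8 * ‖x‖) ^ (2 : ℝ≥0∞).toReal := by
        rw [h2, Real.rpow_natCast]
        nlinarith [sq_nonneg ‖x‖]

/-- The injective operator `T : c_0 → ℓ_2`. -/
noncomputable def T : E0 →L[ℝ] lp (fun _ : ℕ => ℝ) 2 :=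
  Tlin.mkContinuous 8 Tlin_bound

theorem T_apply (x : E0) (n : ℕ) : (T x : ℕ → ℝ) n = dcoord x n := rfl

theorem T_injective {x : E0} (h : T x = 0) : x = 0 := by
  have hc : ∀ n, dcoord x n = 0 := fun n => by
    rw [← T_apply, h]; rfl
  have h0 : x 0 = 0 := hc 0
  have hstep : ∀ n, x (n + 2) = x (n + 1) := by
    intro n
    have := hc (n + 1)
    simp only [dcoord] at this
    have h2 : (1 / 2 : ℝ) ^ n ≠ 0 := by positivity
    have := (mul_eq_zero.1 this).resolve_left h2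
    linarith
  have hconst : ∀ n, x (n + 1) = x 1 := by
    intro n
    induction n with
    | zero => rfl
    | succ n ih => rw [hstep n, ih]
  have hlim : Tendsto (fun n => x (n + 1)) atTop (𝓝 0) :=
    (tendsto_coord x).comp (tendsto_add_atTop_nat 1)
  have h1 : x 1 = 0 := by
    have : Tendsto (fun n : ℕ => x (n + 1)) atTop (𝓝 (x 1)) := by
      simp_rw [hconst]; exact tendsto_const_nhds
    exact tendsto_nhds_unique this hlim
  ext n
  cases n with
  | zero => exact h0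
  | succ n => rw [hconst n, h1]; rfl

theorem abs_coord_zero_le_T (x : E0) : |x 0| ≤ ‖T x‖ :=
  lp.norm_apply_le_norm (by norm_num : (2 : ℝ≥0∞) ≠ 0) (T x) 0

/-! ### the cubic part -/

/-- `(max u 0)^3` is `C^2`. -/
theorem hasDerivAt_posPart_pow (m : ℕ) (u : ℝ) :
    HasDerivAt (fun u : ℝ => (max u 0) ^ (m + 2)) ((m + 2 : ℝ) * (max u 0) ^ (m + 1)) u := by
  rcases lt_trichotomy u 0 with hu | hu | hu
  · have h1 : (fun u : ℝ => (max u 0) ^ (m + 2)) =ᶠ[𝓝 u] fun _ => (0 : ℝ) := by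
      filter_upwards [isOpen_Iio.mem_nhds hu] with v hv
      rw [max_eq_right (le_of_lt hv)]
      simp
    rw [max_eq_right hu.le]
    simpa using (hasDerivAt_const u (0 : ℝ)).congr_of_eventuallyEq h1
  · subst hu
    simp only [max_self]
    rw [hasDerivAt_iff_isLittleO]
    simp only [max_self, sub_zero, ne_eq, Nat.add_eq_zero_iff, OfNat.ofNat_ne_zero, and_false,
      not_false_eq_true, zero_pow, smul_eq_mul, one_ne_zero, mul_zero]
    have : (fun x : ℝ => x ^ (m + 2)) =o[𝓝 0] fun x => x := by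
      simpa using Asymptotics.isLittleO_pow_pow (𝕜 := ℝ) (m := 1) (n := m + 2) (by omega)
    refine Asymptotics.IsBigO.trans_isLittleO ?_ this
    refine Asymptotics.IsBigO.of_bound 1 (Eventually.of_forall fun x => ?_)
    rw [one_mul, Real.norm_eq_abs, Real.norm_eq_abs, abs_pow, abs_pow]
    refine pow_le_pow_left₀ (abs_nonneg _) ?_ _
    rw [abs_of_nonneg (le_max_right _ _)]
    exact max_le (le_abs_self _) (abs_nonneg _)
  · have h1 : (fun u : ℝ => (max u 0) ^ (m + 2)) =ᶠ[𝓝 u] fun v => v ^ (m + 2) := by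
      filter_upwards [isOpen_Ioi.mem_nhds hu] with v hv
      rw [max_eq_left (le_of_lt hv)]
    rw [max_eq_left hu.le]
    have := (hasDerivAt_pow (m + 2) u).congr_of_eventuallyEq h1
    simpa using this

theorem contDiff_posPart_pow (m : ℕ) :
    ContDiff ℝ (m + 1 : ℕ) (fun u : ℝ => (max u 0) ^ (m + 2)) := by
  induction m with
  | zero =>
    rw [show ((0 + 1 : ℕ) : WithTop ℕ∞) = 1 by norm_num, contDiff_one_iff_deriv]
    refine ⟨fun u => (hasDerivAt_posPart_pow 0 u).differentiableAt, ?_⟩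
    have : deriv (fun u : ℝ => (max u 0) ^ (0 + 2)) = fun u => ((0 : ℕ) + 2 : ℝ) * (max u 0) ^ (0 + 1) := by
      ext u; exact (hasDerivAt_posPart_pow 0 u).deriv
    rw [this]
    fun_prop
  | succ m ih =>
    rw [show ((m + 1 + 1 : ℕ) : WithTop ℕ∞) = ((m + 1 : ℕ) : WithTop ℕ∞) + 1 by norm_cast,
      contDiff_succ_iff_deriv]
    refine ⟨fun u => (hasDerivAt_posPart_pow (m + 1) u).differentiableAt, by simp, ?_⟩
    have : deriv (fun u : ℝ => (max u 0) ^ (m + 1 + 2)) =
        fun u => ((m + 1 : ℕ) + 2 : ℝ) * (max u 0) ^ (m + 2) := by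
      ext u
      have := (hasDerivAt_posPart_pow (m + 1) u).deriv
      rw [this]
    rw [this]
    exact contDiff_const.mul ih

/-- The bump-like convex function on the line. -/
noncomputable def phi (u : ℝ) : ℝ := (max (u ^ 2 - 1) 0) ^ 3

theorem contDiff_phi : ContDiff ℝ 2 phi := by
  have h := contDiff_posPart_pow 1
  have h2 : ContDiff ℝ 2 (fun u : ℝ => u ^ 2 - 1) := by fun_prop
  exact (show ContDiff ℝ 2 (fun u : ℝ => (max u 0) ^ 3) from h).comp h2

theorem phi_nonneg (u : ℝ) : 0 ≤ phi u := by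
  unfold phi; positivity

theorem phi_eq_zero {u : ℝ} (hu : |u| ≤ 1) : phi u = 0 := by
  unfold phi
  have : u ^ 2 ≤ 1 := by
    rw [← sq_abs]; exact pow_le_one₀ (abs_nonneg _) hu
  rw [max_eq_right (by linarith)]
  norm_num

theorem abs_le_two_of_phi_lt {u : ℝ} (hu : phi u < 1) : |u| ≤ 2 := by
  by_contra hcon
  push Not at hcon
  have h4 : 4 < u ^ 2 := by
    rw [← sq_abs]; nlinarith [abs_nonneg u]
  have : 3 ≤ max (u ^ 2 - 1) 0 := le_max_of_le_left (by linarith)
  have : (3 : ℝ) ^ 3 ≤ (max (u ^ 2 - 1) 0) ^ 3 := pow_le_pow_left₀ (by norm_num) this 3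
  unfold phi at hu
  linarith

theorem convexOn_phi : ConvexOn ℝ univ phi := by
  have h1 : ConvexOn ℝ univ (fun u : ℝ => u ^ 2 - 1) := by
    have := (even_two.convexOn_pow (𝕜 := ℝ) (n := 2)).sub (concaveOn_const (1 : ℝ) convex_univ)
    exact this
  have h2 : ConvexOn ℝ univ (fun u : ℝ => max (u ^ 2 - 1) 0) :=
    h1.sup (convexOn_const 0 convex_univ)
  have h3 := h2.pow (fun u _ => le_max_right _ _) 3
  exact h3

/-- The sum `∑ φ (x n)`. -/
noncomputable def S (x : E0) : ℝ := ∑' n, phi (x n)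

theorem exists_tail (x₀ : E0) : ∃ N : ℕ, ∀ y : E0, ‖y - x₀‖ < 1 / 2 → ∀ n, N ≤ n → phi (y n) = 0 := by
  have h := tendsto_coord x₀
  have h1 : ∀ᶠ n in atTop, |x₀ n| < 1 / 2 := by
    have := (h.abs).eventually (gt_mem_nhds (show |(0 : ℝ)| < 1 / 2 by norm_num))
    exact this
  obtain ⟨N, hN⟩ := eventually_atTop.1 h1
  refine ⟨N, fun y hy n hn => phi_eq_zero ?_⟩
  have h2 := abs_coord_le (y - x₀) n
  have h3 : (y - x₀) n = y n - x₀ n := rfl
  rw [h3] at h2
  have h4 := hN n hn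
  calc |y n| = |(y n - x₀ n) + x₀ n| := by ring_nf
    _ ≤ |y n - x₀ n| + |x₀ n| := abs_add_le _ _
    _ ≤ 1 := by linarith

theorem S_eq_sum (x₀ : E0) {N : ℕ} (hN : ∀ n, N ≤ n → phi (x₀ n) = 0) :
    S x₀ = ∑ n ∈ Finset.range N, phi (x₀ n) := by
  unfold S
  refine tsum_eq_sum (fun n hn => hN n ?_)
  simpa using hn

theorem S_summable (x₀ : E0) : Summable (fun n => phi (x₀ n)) := by
  obtain ⟨N, hN⟩ := exists_tail x₀
  refine summable_of_ne_finset_zero (s := Finset.range N) (fun n hn => hN x₀ (by simp) n ?_)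
  simpa using hn

theorem contDiff_S : ContDiff ℝ 2 S := by
  rw [contDiff_iff_contDiffAt]
  intro x₀
  obtain ⟨N, hN⟩ := exists_tail x₀
  have hev : S =ᶠ[𝓝 x₀] fun y => ∑ n ∈ Finset.range N, phi (ev n y) := by
    have : Metric.ball x₀ (1 / 2) ∈ 𝓝 x₀ := Metric.ball_mem_nhds _ (by norm_num)
    filter_upwards [this] with y hy
    rw [Metric.mem_ball, dist_eq_norm] at hy
    exact S_eq_sum y (hN y hy)
  refine ContDiffAt.congr_of_eventuallyEq ?_ hev
  refine ContDiff.contDiffAt ?_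
  refine ContDiff.sum (fun n _ => ?_)
  exact contDiff_phi.comp (ev n).contDiff

theorem convexOn_S : ConvexOn ℝ univ S := by
  refine ⟨convex_univ, fun x _ y _ a b ha hb hab => ?_⟩
  unfold S
  rw [smul_eq_mul, smul_eq_mul, ← tsum_mul_left, ← tsum_mul_left,
    ← ((S_summable x).mul_left a).tsum_add ((S_summable y).mul_left b)]
  refine (S_summable _).tsum_le_tsum (fun n => ?_)
    (((S_summable x).mul_left a).add ((S_summable y).mul_left b))
  have := convexOn_phi.2 (mem_univ (x n)) (mem_univ (y n)) ha hb hab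
  simpa using this

theorem S_nonneg (x : E0) : 0 ≤ S x := tsum_nonneg fun _ => phi_nonneg _

theorem phi_le_S (x : E0) (n : ℕ) : phi (x n) ≤ S x :=
  (S_summable x).le_tsum n (fun _ _ => phi_nonneg _)

/-- The convex functional. -/
noncomputable def Phi (x : E0) : ℝ := (x 1) ^ 2 + 2 * ‖T x‖ + S x

theorem Phi_zero : Phi 0 = 0 := by
  have h : S 0 = 0 := by
    unfold S
    have : ∀ n : ℕ, phi ((0 : E0) n) = 0 := fun n => phi_eq_zero (by simp)
    simp only [this, tsum_zero]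
  unfold Phi
  simp [h]

theorem Phi_neg (x : E0) : Phi (-x) = Phi x := by
  unfold Phi S
  simp [phi]

theorem convexOn_Phi : ConvexOn ℝ univ Phi := by
  have h1 : ConvexOn ℝ univ (fun x : E0 => (x 1) ^ 2) := by
    have := (even_two.convexOn_pow (𝕜 := ℝ) (n := 2)).comp_linearMap (ev 1).toLinearMap
    simpa [Function.comp_def] using this
  have h2 : ConvexOn ℝ univ (fun x : E0 => 2 * ‖T x‖) := by
    have h := (convexOn_norm (E := lp (fun _ : ℕ => ℝ) 2) convex_univ).comp_linearMap T.toLinearMap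
    have h' : ConvexOn ℝ univ (fun x : E0 => ‖T x‖) := by
      simpa [Function.comp_def] using h
    simpa using h'.smul (zero_le_two (α := ℝ))
  exact (h1.add h2).add convexOn_S

theorem continuous_Phi : Continuous Phi := by
  have h1 : Continuous fun x : E0 => (x 1) ^ 2 := (ev 1).continuous.pow 2
  have h2 : Continuous fun x : E0 => 2 * ‖T x‖ := continuous_const.mul T.continuous.norm
  exact (h1.add h2).add contDiff_S.continuous

theorem contDiffAt_Phi (x : E0) (hx : x ≠ 0) : ContDiffAt ℝ 2 Phi x := by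
  have h1 : ContDiffAt ℝ 2 (fun x : E0 => (x 1) ^ 2) x :=
    ((ev 1).contDiff.pow 2).contDiffAt
  have h2 : ContDiffAt ℝ 2 (fun x : E0 => 2 * ‖T x‖) x := by
    have hT : T x ≠ 0 := fun h => hx (T_injective h)
    have := (contDiffAt_norm ℝ hT (n := 2)).comp x T.contDiff.contDiffAt
    exact contDiffAt_const.mul this
  exact (h1.add h2).add contDiff_S.contDiffAt

theorem norm_le_of_Phi_lt (x : E0) (hx : Phi x < 1) : ‖x‖ ≤ 2 := by
  refine norm_le_of_coord x (by norm_num) (fun n => abs_le_two_of_phi_lt ?_)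
  have h1 := phi_le_S x n
  have h2 : 0 ≤ (x 1) ^ 2 + 2 * ‖T x‖ := by positivity
  unfold Phi at hx
  linarith

theorem abs_add_abs_lt (x : E0) (hx : Phi x < 1) : |x 1| + |x 0| < 1 := by
  have h0 := abs_coord_zero_le_T x
  have h1 := S_nonneg x
  unfold Phi at hx
  have h2 : |x 1| ^ 2 + 2 * |x 0| < 1 := by rw [sq_abs]; linarith
  nlinarith [abs_nonneg (x 1), abs_nonneg (x 0), sq_nonneg (1 - |x 1|)]

/-- The test vectors: `δ` on `{1, …, m+1}`, zero elsewhere. -/
noncomputable def w (δ : ℝ) (m : ℕ) : E0 where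
  toFun k := if 1 ≤ k ∧ k ≤ m + 1 then δ else 0
  continuous_toFun := continuous_of_discreteTopology
  zero_at_infty' := by
    rw [Filter.cocompact_eq_cofinite, Nat.cofinite_eq_atTop]
    refine tendsto_const_nhds.congr' ?_
    filter_upwards [eventually_ge_atTop (m + 2)] with k hk
    rw [if_neg (by omega)]

theorem w_apply (δ : ℝ) (m k : ℕ) : w δ m k = if 1 ≤ k ∧ k ≤ m + 1 then δ else 0 := rfl

theorem T_w (δ : ℝ) (m : ℕ) : T (w δ m) = lp.single 2 (m + 1) ((1 / 2 : ℝ) ^ m * δ) := by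
  ext k
  rw [T_apply]
  cases k with
  | zero => simp [dcoord, w_apply]
  | succ k =>
    simp only [dcoord, w_apply]
    by_cases hk : k = m
    · subst hk
      simp
    · have hk' : k + 1 ≠ m + 1 := by omega
      rw [lp.single_apply_ne _ _ _ hk']
      by_cases hlt : k < m
      · rw [if_pos (by omega), if_pos (by omega)]; ring
      · rw [if_neg (by omega), if_neg (by omega)]; ring

theorem norm_T_w (δ : ℝ) (m : ℕ) : ‖T (w δ m)‖ = (1 / 2 : ℝ) ^ m * |δ| := by
  rw [T_w, lp.norm_single (by norm_num), norm_mul, Real.norm_eq_abs, Real.norm_eq_abs,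
    abs_of_pos (by positivity)]

theorem Phi_w {δ : ℝ} (h0 : 0 ≤ δ) (h1 : δ ≤ 1) (m : ℕ) :
    Phi (w δ m) = δ ^ 2 + 2 * ((1 / 2 : ℝ) ^ m * δ) := by
  have hS : S (w δ m) = 0 := by
    unfold S
    have : ∀ n : ℕ, phi ((w δ m) n) = 0 := fun n => phi_eq_zero (by
      rw [w_apply]; split_ifs
      · rw [abs_of_nonneg h0]; exact h1
      · simp)
    simp [this]
  have h2 : (w δ m) 1 = δ := by rw [w_apply, if_pos (by omega)]
  unfold Phi
  rw [hS, h2, norm_T_w, abs_of_nonneg h0, add_zero]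

end Pool.Agent.Lib.MP_fb9e71_an
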