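import Mathlib

set_option autoImplicit false

/-!
# Smoothness of the gauge of a sublevel set

If `Φ` is convex, continuous, `Φ 0 < 1`, the set `{Φ < 1}` is bounded and `Φ` is `C^n` away from
the origin, then the Minkowski gauge of `{Φ < 1}` is `C^n` away from the origin.
-/

namespace Pool.Agent.Lib.MP_fb9e71_an

open scoped Topology ContDiff
open Set Filter

section Gauge

variable {E : Type*} [NormedAddCommGroup E] [NormedSpace ℝ E]

/-- The basic facts on `U = {Φ < 1}`. -/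
theorem convex_sublevel {Φ : E → ℝ} (hconv : ConvexOn ℝ univ Φ) :
    Convex ℝ {y : E | Φ y < 1} := by
  have := hconv.convex_lt 1
  simpa using this

omit [NormedSpace ℝ E] in
theorem mem_nhds_sublevel {Φ : E → ℝ} (hcont : Continuous Φ) (h0 : Φ 0 < 1) :
    {y : E | Φ y < 1} ∈ 𝓝 (0 : E) :=
  (isOpen_lt hcont continuous_const).mem_nhds h0

theorem gauge_lt_one_iff {Φ : E → ℝ} (hconv : ConvexOn ℝ univ Φ) (hcont : Continuous Φ)
    (h0 : Φ 0 < 1) (x : E) : gauge {y : E | Φ y < 1} x < 1 ↔ Φ x < 1 := by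
  have hopen : IsOpen {y : E | Φ y < 1} := isOpen_lt hcont continuous_const
  have h := setOfPred_gauge_lt_one_eq_self_of_isOpen (convex_sublevel hconv) h0 hopen
  have h' : x ∈ {x | gauge {y : E | Φ y < 1} x < 1} ↔ x ∈ {y : E | Φ y < 1} := by rw [h]
  exact h'

theorem phi_eq_one {Φ : E → ℝ} (hconv : ConvexOn ℝ univ Φ) (hcont : Continuous Φ)
    (h0 : Φ 0 < 1) (z : E) (hz : gauge {y : E | Φ y < 1} z = 1) : Φ z = 1 := by
  apply le_antisymm
  · -- limit of `Φ (t z)` as `t → 1-`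
    have h1 : Tendsto (fun t : ℝ => Φ (t • z)) (𝓝[<] 1) (𝓝 (Φ ((1 : ℝ) • z))) :=
      ((hcont.comp (continuous_id.smul continuous_const)).tendsto 1).mono_left
        nhdsWithin_le_nhds
    rw [one_smul] at h1
    refine le_of_tendsto h1 ?_
    filter_upwards [Ioo_mem_nhdsLT (zero_lt_one (α := ℝ))] with t ht
    refine le_of_lt ((gauge_lt_one_iff hconv hcont h0 _).1 ?_)
    rw [gauge_smul_of_nonneg ht.1.le, hz, smul_eq_mul, mul_one]
    exact ht.2
  · by_contra hlt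
    push Not at hlt
    have := (gauge_lt_one_iff hconv hcont h0 z).2 hlt
    linarith

theorem norm_le_mul_gauge {Φ : E → ℝ} (hcont : Continuous Φ)
    (h0 : Φ 0 < 1) {R : ℝ} (hR : 0 < R) (hbdd : ∀ x, Φ x < 1 → ‖x‖ ≤ R) (x : E) :
    ‖x‖ ≤ R * gauge {y : E | Φ y < 1} x := by
  have h := le_gauge_of_subset_closedBall (absorbent_nhds_zero (mem_nhds_sublevel hcont h0))
    hR.le (s := {y : E | Φ y < 1}) (fun y hy => by
      simpa using hbdd y hy) (x := x)
  rw [div_le_iff₀ hR] at h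
  linarith

/-- **Smoothness of the gauge** via the implicit function theorem. -/
theorem contDiffAt_gauge [CompleteSpace E] {Φ : E → ℝ} {n : ℕ∞ω} (hn : n ≠ 0)
    (hconv : ConvexOn ℝ univ Φ) (hcont : Continuous Φ)
    (h0 : Φ 0 < 1) {R : ℝ} (hR : 0 < R) (hbdd : ∀ x, Φ x < 1 → ‖x‖ ≤ R)
    (hsm : ∀ x, x ≠ 0 → ContDiffAt ℝ n Φ x) (x₀ : E) (hx₀ : x₀ ≠ 0) :
    ContDiffAt ℝ n (gauge {y : E | Φ y < 1}) x₀ := by
  set p : E → ℝ := gauge {y : E | Φ y < 1} with hp
  have hpos : ∀ x : E, x ≠ 0 → 0 < p x := by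
    intro x hx
    have h1 := norm_le_mul_gauge hcont h0 hR hbdd x
    have h2 : 0 < ‖x‖ := norm_pos_iff.2 hx
    by_contra hcon
    push Not at hcon
    have : R * p x ≤ 0 := mul_nonpos_of_nonneg_of_nonpos hR.le hcon
    linarith
  have hpc : Continuous p := continuous_gauge (convex_sublevel hconv) (mem_nhds_sublevel hcont h0)
  have hΦ1 : ∀ x : E, x ≠ 0 → Φ ((p x)⁻¹ • x) = 1 := by
    intro x hx
    apply phi_eq_one hconv hcont h0
    rw [gauge_smul_of_nonneg (inv_nonneg.2 (hpos x hx).le), smul_eq_mul]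
    exact inv_mul_cancel₀ (hpos x hx).ne'
  set μ₀ : ℝ := (p x₀)⁻¹ with hμ₀
  have hμpos : 0 < μ₀ := inv_pos.2 (hpos x₀ hx₀)
  let F : E × ℝ → ℝ := fun q => Φ (q.2 • q.1)
  let u : E × ℝ := (x₀, μ₀)
  have hne : μ₀ • x₀ ≠ 0 := smul_ne_zero hμpos.ne' hx₀
  have cdf : ContDiffAt ℝ n F u := by
    have h1 : ContDiffAt ℝ n Φ ((fun q : E × ℝ => q.2 • q.1) u) := hsm _ hne
    have h2 : ContDiffAt ℝ n (fun q : E × ℝ => q.2 • q.1) u :=
      (contDiff_snd.smul contDiff_fst).contDiffAt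
    exact h1.comp u h2
  have hFd : DifferentiableAt ℝ F u := cdf.differentiableAt hn
  -- derivative in the second variable is positive
  set D : ℝ →L[ℝ] ℝ := fderiv ℝ F u ∘L .inr ℝ E ℝ with hD
  have hgder : HasDerivAt (fun s : ℝ => Φ (s • x₀)) (D 1) μ₀ := by
    have h1 : HasFDerivAt F (fderiv ℝ F u) u := hFd.hasFDerivAt
    have h2 : HasDerivAt (fun s : ℝ => ((x₀, s) : E × ℝ)) ((0 : E), (1 : ℝ)) μ₀ :=
      (hasDerivAt_const μ₀ x₀).prodMk (hasDerivAt_id μ₀)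
    have h3 := HasFDerivAt.comp_hasDerivAt (x := μ₀) (f := fun s : ℝ => ((x₀, s) : E × ℝ))
      (l := F) (by exact h1) h2
    exact h3
  have hgconv : ConvexOn ℝ univ (fun s : ℝ => Φ (s • x₀)) := by
    have := hconv.comp_linearMap (LinearMap.toSpanSingleton ℝ E x₀)
    simpa [Function.comp_def] using this
  have hD1 : 0 < D 1 := by
    have hsl := hgconv.slope_le_of_hasDerivAt (mem_univ 0) (mem_univ μ₀) hμpos hgder
    have : 0 < slope (fun s : ℝ => Φ (s • x₀)) 0 μ₀ := by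
      rw [slope_def_field]
      simp only [zero_smul]
      rw [show Φ (μ₀ • x₀) = 1 from hΦ1 x₀ hx₀]
      apply div_pos <;> linarith
    linarith
  have if₂ : D.IsInvertible := by
    have hDne : D 1 ≠ 0 := hD1.ne'
    refine ⟨ContinuousLinearEquiv.unitsEquivAut ℝ (Units.mk0 (D 1) hDne), ?_⟩
    ext
    simp
  have hev := cdf.eventually_apply_eq_iff_implicitFunction hn if₂
  have hψ : ContDiffAt ℝ n (cdf.implicitFunction hn if₂) x₀ := cdf.contDiffAt_implicitFunction hn if₂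
  have hψ0 : cdf.implicitFunction hn if₂ x₀ = μ₀ := cdf.implicitFunction_apply_self hn if₂
  have htend : Tendsto (fun x : E => (x, (p x)⁻¹)) (𝓝 x₀) (𝓝 u) := by
    apply Tendsto.prodMk_nhds tendsto_id
    exact (hpc.tendsto x₀).inv₀ (hpos x₀ hx₀).ne'
  have hev2 := htend.eventually hev
  have hne' : ∀ᶠ x in 𝓝 x₀, x ≠ 0 := isOpen_ne.mem_nhds hx₀
  have hfin : ∀ᶠ x in 𝓝 x₀, p x = (cdf.implicitFunction hn if₂ x)⁻¹ := by
    filter_upwards [hev2, hne'] with x hx hx0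
    have h1 : F (x, (p x)⁻¹) = F u := by
      simp only [F, u]
      rw [hΦ1 x hx0, hΦ1 x₀ hx₀]
    have h2 := hx.1 h1
    rw [h2, inv_inv]
  refine ContDiffAt.congr_of_eventuallyEq ?_ hfin
  exact hψ.inv (by rw [hψ0]; exact hμpos.ne')

end Gauge

end Pool.Agent.Lib.MP_fb9e71_an
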