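import Pool.Agent.Lib.MP_fb9e71_an.GaugeSmooth
import Pool.Agent.Lib.MP_fb9e71_an.Functional

set_option autoImplicit false

/-!
# A `C^2` norm on `c_0` whose dual norm is not strictly convex
-/

namespace Pool.Agent.Lib.MP_fb9e71_an

open scoped Topology ContDiff
open Set Filter

/-- The norm. -/
noncomputable def N (x : E0) : ℝ := gauge {y : E0 | Phi y < 1} x

theorem Phi_zero_lt : Phi 0 < 1 := by rw [Phi_zero]; norm_num

theorem N_nonneg (x : E0) : 0 ≤ N x := gauge_nonneg _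

theorem N_lt_one_iff (x : E0) : N x < 1 ↔ Phi x < 1 :=
  gauge_lt_one_iff convexOn_Phi continuous_Phi Phi_zero_lt x

theorem N_smul_of_nonneg {c : ℝ} (hc : 0 ≤ c) (x : E0) : N (c • x) = c * N x := by
  unfold N
  rw [gauge_smul_of_nonneg hc, smul_eq_mul]

theorem N_neg (x : E0) : N (-x) = N x := by
  refine gauge_neg ?_ x
  intro x hx
  show Phi (-x) < 1
  rw [Phi_neg]; exact hx

theorem N_smul (c : ℝ) (x : E0) : N (c • x) = |c| * N x := by
  rcases le_total 0 c with hc | hc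
  · rw [N_smul_of_nonneg hc, abs_of_nonneg hc]
  · have : c • x = (-c) • (-x) := (neg_smul_neg c x).symm
    rw [this, N_smul_of_nonneg (neg_nonneg.2 hc), N_neg, abs_of_nonpos hc]

theorem N_add_le (x y : E0) : N (x + y) ≤ N x + N y :=
  gauge_add_le (convex_sublevel convexOn_Phi)
    (absorbent_nhds_zero (mem_nhds_sublevel continuous_Phi Phi_zero_lt)) x y

theorem N_lower (x : E0) : 2⁻¹ * ‖x‖ ≤ N x := by
  have := norm_le_mul_gauge continuous_Phi Phi_zero_lt (R := 2) (by norm_num) norm_le_of_Phi_lt x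
  unfold N
  linarith

theorem N_upper : ∃ b : ℝ, 0 < b ∧ ∀ x : E0, N x ≤ b * ‖x‖ := by
  obtain ⟨r, hr, hball⟩ := Metric.mem_nhds_iff.1 (mem_nhds_sublevel continuous_Phi Phi_zero_lt)
  refine ⟨r⁻¹, inv_pos.2 hr, fun x => ?_⟩
  have := mul_gauge_le_norm (x := x) hball
  unfold N
  rw [inv_mul_eq_div, le_div_iff₀ hr]
  linarith

theorem contDiffAt_N (x : E0) (hx : x ≠ 0) : ContDiffAt ℝ 2 N x :=
  contDiffAt_gauge (by norm_num) convexOn_Phi continuous_Phi Phi_zero_lt (R := 2) (by norm_num)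
      norm_le_of_Phi_lt contDiffAt_Phi x hx

theorem le_one_of_N_le_one (φ : E0 →L[ℝ] ℝ) (hφ : ∀ x : E0, Phi x < 1 → φ x ≤ 1)
    (x : E0) (hx : N x ≤ 1) : φ x ≤ 1 := by
  have h1 : Tendsto (fun t : ℝ => φ (t • x)) (𝓝[<] 1) (𝓝 (φ ((1 : ℝ) • x))) :=
    ((φ.continuous.comp (continuous_id.smul continuous_const)).tendsto 1).mono_left
      nhdsWithin_le_nhds
  rw [one_smul] at h1
  refine le_of_tendsto h1 ?_
  filter_upwards [Ioo_mem_nhdsLT (zero_lt_one (α := ℝ))] with t ht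
  refine hφ _ ((N_lt_one_iff _).1 ?_)
  rw [N_smul_of_nonneg ht.1.le]
  nlinarith [N_nonneg x, ht.1, ht.2]

/-- The vector `e_0`. -/
noncomputable def e0vec : E0 where
  toFun k := if k = 0 then 1 else 0
  continuous_toFun := continuous_of_discreteTopology
  zero_at_infty' := by
    rw [Filter.cocompact_eq_cofinite, Nat.cofinite_eq_atTop]
    refine tendsto_const_nhds.congr' ?_
    filter_upwards [eventually_ge_atTop 1] with k hk
    rw [if_neg (by omega)]

theorem ev_ne : ev 1 + ev 0 ≠ ev 1 - ev 0 := by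
  intro h
  have h1 : (ev 1 + ev 0) e0vec = (ev 1 - ev 0) e0vec := by rw [h]
  have h2 : (e0vec : ℕ → ℝ) 0 = 1 := rfl
  have h3 : (e0vec : ℕ → ℝ) 1 = 0 := rfl
  simp only [_root_.add_apply, _root_.sub_apply, ev_apply, h2, h3] at h1
  norm_num at h1

theorem exists_test (ε : ℝ) (hε : 0 < ε) : ∃ x : E0, N x ≤ 1 ∧ 1 - ε < x 1 := by
  obtain ⟨δ, hδ1, hδ2⟩ : ∃ δ : ℝ, max (1 - ε) 0 < δ ∧ δ < 1 :=
    exists_between (max_lt (by linarith) (by norm_num))
  have hδ0 : 0 < δ := lt_of_le_of_lt (le_max_right _ _) hδ1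
  have hδε : 1 - ε < δ := lt_of_le_of_lt (le_max_left _ _) hδ1
  obtain ⟨m, hm⟩ := exists_pow_lt_of_lt_one (show 0 < (1 - δ ^ 2) / 2 by nlinarith)
    (show (1 / 2 : ℝ) < 1 by norm_num)
  refine ⟨w δ m, ?_, ?_⟩
  · refine le_of_lt ((N_lt_one_iff _).2 ?_)
    rw [Phi_w hδ0.le hδ2.le]
    have : 0 < (1 / 2 : ℝ) ^ m := by positivity
    nlinarith
  · have : (w δ m) 1 = δ := by rw [w_apply, if_pos (by omega)]
    rw [this]; exact hδε

end Pool.Agent.Lib.MP_fb9e71_an
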